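import Pool.Agent.Helper32.AG.Goals

/-! Packet N3 of project AG (MP_0f21ab_al). -/

set_option autoImplicit false

namespace Pool.Agent.Helper80.AG

open Pool.Agent.Helper32.AG

/-- `(d t + 1)² ((d t + 1)² + 4)` -/
def F (t d : ℕ) : ℕ := (d * t + 1) ^ 2 * ((d * t + 1) ^ 2 + 4)

theorem F_symm (t d : ℕ) : F t d = F d t := by unfold F; rw [mul_comm d t]

theorem F_step (t d : ℕ) (ht : 4 ≤ t) : F (t + 1) d ≤ 3 * F t d := by
  unfold F
  have hx : 4 * (d * (t + 1) + 1) ≤ 5 * (d * t + 1) := by nlinarith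
  have hx2 : (4 * (d * (t + 1) + 1)) ^ 2 ≤ (5 * (d * t + 1)) ^ 2 := Nat.pow_le_pow_left hx 2
  generalize (d * (t + 1) + 1) = y at *
  generalize (d * t + 1) = x at *
  have h2 : 16 * y ^ 2 ≤ 25 * x ^ 2 := by nlinarith
  generalize y ^ 2 = u at *
  generalize x ^ 2 = v at *
  nlinarith [Nat.mul_le_mul h2 h2]

/-- the basic inequality -/
def P (t d : ℕ) : Prop := 3 * F t d ≤ 16 * 3 ^ (t + d)

theorem P_step (t d : ℕ) (ht : 4 ≤ t) (h : P t d) : P (t + 1) d := by
  unfold P at *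
  have := F_step t d ht
  have e : t + 1 + d = (t + d) + 1 := by ring
  rw [e, pow_succ]
  omega

theorem P_symm (t d : ℕ) (h : P t d) : P d t := by
  unfold P at *
  rw [F_symm d t, add_comm d t]; exact h

theorem P_small (t d : ℕ) (ht : 7 ≤ t) (h1 : 1 ≤ d) (h2 : d ≤ 7) : P t d := by
  induction t, ht using Nat.le_induction with
  | base => interval_cases d <;> (unfold P F; norm_num)
  | succ n hn ih => exact P_step n d (by omega) ih

theorem P_all (t d : ℕ) (ht : 7 ≤ t) (h1 : 1 ≤ d) : P t d := by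
  rcases le_total d 7 with h | h
  · exact P_small t d ht h1 h
  · induction d, h using Nat.le_induction with
    | base => exact P_small t 7 ht (by norm_num) le_rfl
    | succ n hn ih => exact P_symm _ _ (P_step n t (by omega) (P_symm _ _ (ih (by omega))))

/-- conclusion from `P` -/
theorem of_P (t d q m : ℕ) (hm : m + 1 = t + d) (hq : 1 ≤ q) (h : 4 * (q - 1) ≤ (d * t + 1) ^ 2)
    (hP : P t d) : q * (q - 1) ≤ 3 ^ m := by
  unfold P F at hP
  rw [← hm] at hP
  have e3 : 3 ^ (m + 1) = 3 ^ m * 3 := pow_succ 3 m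
  rw [e3] at hP
  obtain ⟨s, rfl⟩ : ∃ s, q = s + 1 := ⟨q - 1, by omega⟩
  simp only [Nat.add_sub_cancel] at h ⊢
  generalize (d * t + 1) ^ 2 = u at *
  have : (4 * s) * (4 * s + 4) ≤ u * (u + 4) := Nat.mul_le_mul h (by omega)
  nlinarith

/-- the small cases, given the bound `4 (q - 1) ≤ (d t + 1)²`; either the conclusion holds or we are
in the exceptional case `q = 64`, `d = 3`, `t = 5`. -/
theorem small (p a d t m : ℕ) (hp : p.Prime) (ha : 0 < a) (hda : d ∣ a) (hpd : ¬ p ∣ d)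
    (ht1 : 1 ≤ t) (ht : t ≤ 6) (hd2 : 2 ≤ d) (hd : d ≤ 6) (hm : m + 1 = t + d)
    (h : 4 * (p ^ a - 1) ≤ (d * t + 1) ^ 2) :
    p ^ a * (p ^ a - 1) ≤ 3 ^ m ∨ (p = 2 ∧ a = 6 ∧ d = 3 ∧ t = 5) := by
  have hle : d ≤ a := Nat.le_of_dvd ha hda
  have hpa1 : 1 ≤ p ^ a := Nat.one_le_pow _ _ hp.pos
  have hb : 4 * (p ^ a - 1) ≤ (d * 6 + 1) ^ 2 :=
    h.trans (Nat.pow_le_pow_left (by nlinarith) 2)
  have hpd' : p ^ d ≤ p ^ a := Nat.pow_le_pow_right hp.pos hle
  have h2a : 2 ^ a ≤ p ^ a := Nat.pow_le_pow_left hp.two_le a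
  have ha9 : a < 9 := by
    by_contra hc
    have h3 : 2 ^ 9 ≤ 2 ^ a := Nat.pow_le_pow_right (by norm_num) (by omega)
    have h4 : (d * 6 + 1) ^ 2 ≤ (6 * 6 + 1) ^ 2 := Nat.pow_le_pow_left (by nlinarith) 2
    norm_num at h3 h4
    omega
  have hp7 : p ≤ 7 ∨ d = 2 := by
    by_contra hc
    push Not at hc
    have h5 : 8 ^ 3 ≤ p ^ 3 := Nat.pow_le_pow_left (by omega) 3
    have h6 : p ^ 3 ≤ p ^ d := Nat.pow_le_pow_right hp.pos (by omega)
    have h4 : (d * 6 + 1) ^ 2 ≤ (6 * 6 + 1) ^ 2 := Nat.pow_le_pow_left (by nlinarith) 2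
    norm_num at h5 h4
    omega
  have hp7' : p ≤ 7 := by
    rcases hp7 with h7 | h7
    · exact h7
    · subst h7
      by_contra hc
      have h5 : 8 ^ 2 ≤ p ^ 2 := Nat.pow_le_pow_left (by omega) 2
      norm_num at h5 hb
      omega
  have hpp : p = 2 ∨ p = 3 ∨ p = 5 ∨ p = 7 := by
    interval_cases p <;> first | omega | (exfalso; revert hp; norm_num)
  obtain rfl : m = t + d - 1 := by omega
  clear hm hp7 hp7' h2a hpd' hpa1 hp
  rcases hpp with rfl | rfl | rfl | rfl <;> interval_cases d <;>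
    first
    | (exfalso; revert hpd; norm_num; done)
    | (interval_cases a <;>
        first
        | (exfalso; revert hda; norm_num; done)
        | (exfalso; revert hb; norm_num; done)
        | (interval_cases t <;>
            first
            | (exfalso; revert h; norm_num; done)
            | (left; norm_num; done)
            | (right; norm_num; done)))

theorem n3 : N3Stmt := by
  intro p a d h kk r hp ha hq4 hd hh hda hpd hhq hmin hkk hr hrq
  have hpa1 : 1 ≤ p ^ a := Nat.one_le_pow _ _ hp.pos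
  have h1 : d ≤ kk := by
    by_contra hc
    have h2 : kk + 1 ≤ d := by omega
    have h3 : d * (kk + 1) ≤ d * d := Nat.mul_le_mul_left d h2
    have h4 : d * (kk + 1) = d * kk + d := by ring
    omega
  obtain ⟨t', rfl⟩ : ∃ t', kk = d + t' := ⟨kk - d, by omega⟩
  have h2 : h ≤ d * t' + 1 := by
    have : d * (d + t') = d * d + d * t' := by ring
    omega
  have hX : h + d * r ≤ d * (t' + r) + 1 := by
    have : d * (t' + r) = d * t' + d * r := by ring
    omega
  have hY : 4 * (p ^ a - 1) ≤ (d * (t' + r) + 1) ^ 2 := by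
    have h3 : (h + d * r) ^ 2 ≤ (d * (t' + r) + 1) ^ 2 := Nat.pow_le_pow_left hX 2
    have h4 : 4 * (r * (h * d)) ≤ (h + d * r) ^ 2 := by
      have h5 : 4 * h * (d * r) ≤ (h + d * r) ^ 2 := four_mul_le_pow_two_add h (d * r)
      calc 4 * (r * (h * d)) = 4 * h * (d * r) := by ring
        _ ≤ _ := h5
    omega
  obtain ⟨t, ht⟩ : ∃ t, t = t' + r := ⟨_, rfl⟩
  have hm : (d + t' + r - 1) + 1 = t + d := by omega
  rw [← ht] at hY hX
  generalize hmm : d + t' + r - 1 = m at *
  have ht1 : 1 ≤ t := by omega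
  rcases le_or_gt 7 t with h7 | h7
  · exact of_P t d _ m hm hpa1 hY (P_all t d h7 hd)
  rcases le_or_gt 7 d with h8 | h8
  · exact of_P t d _ m hm hpa1 hY (P_symm _ _ (P_all d t h8 ht1))
  rcases Nat.lt_or_ge d 2 with h9 | h9
  · obtain rfl : d = 1 := by omega
    refine of_P t 1 _ m hm hpa1 hY ?_
    clear hY hX hm ht hmm
    interval_cases t <;> (unfold P F; norm_num)
  rcases small p a d t m hp ha hda hpd ht1 (by omega) h9 (by omega) hm hY with h10 | h10
  · exact h10
  obtain ⟨rfl, rfl, rfl, rfl⟩ := h10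
  exfalso
  have hr5 : r ≤ 5 := by omega
  have h63 : (2 : ℕ) ^ 6 - 1 = 63 := by norm_num
  rw [h63] at hrq
  have h7' : h = 7 := by
    interval_cases r <;> omega
  subst h7'
  exact hmin 3 (by norm_num) (by norm_num) (by norm_num)

end Pool.Agent.Helper80.AG
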